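import Mathlib

set_option autoImplicit false

/-! # Direct limits of finitely generated modules: the criterion of Lenzing

If every homomorphism from a finitely generated module to `M` factors through a finitely generated
module with a property `P`, then `M` is the direct limit of a directed system of modules with `P`.
-/

namespace Pool.Agent.K6.H7.LZ

open Submodule Module

universe u

variable {R : Type u} [CommRing R] {M : Type u} [AddCommGroup M] [Module R M]
variable {F : Type u} [AddCommGroup F] [Module R F] (e : Basis (M × ℕ) R F)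

/-- The map from the free module. -/
noncomputable def pr : F →ₗ[R] M := e.constr R Prod.fst

theorem pr_e (x : M × ℕ) : pr e (e x) = x.1 := e.constr_basis R _ x

/-- The free module on a finite set of generators. -/
def sp (S : Finset (M × ℕ)) : Submodule R F := Submodule.span R (e '' (S : Set (M × ℕ)))

theorem sp_mono {S T : Finset (M × ℕ)} (h : S ⊆ T) : sp e S ≤ sp e T :=
  Submodule.span_mono (Set.image_mono (by exact_mod_cast h))

theorem e_mem {S : Finset (M × ℕ)} {x : M × ℕ} (h : x ∈ S) : e x ∈ sp e S :=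
  Submodule.subset_span ⟨x, h, rfl⟩

/-- A finite set of generators with a submodule of relations. -/
structure Pres where
  S : Finset (M × ℕ)
  K : Submodule R F
  hS : K ≤ sp e S
  hK : K ≤ LinearMap.ker (pr e)

instance : PartialOrder (Pres e) where
  le a b := a.S ⊆ b.S ∧ a.K ≤ b.K
  le_refl a := ⟨Finset.Subset.refl _, le_refl _⟩
  le_trans a b c h h' := ⟨h.1.trans h'.1, h.2.trans h'.2⟩
  le_antisymm a b h h' := by
    cases a; cases b
    simp only [Pres.mk.injEq]
    exact ⟨Finset.Subset.antisymm h.1 h'.1, le_antisymm h.2 h'.2⟩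

variable {e}

/-- The module presented. -/
abbrev Md (a : Pres e) : Type u := (sp e a.S) ⧸ (a.K.submoduleOf (sp e a.S))

/-- The transition maps. -/
noncomputable def tr {a b : Pres e} (h : a ≤ b) : Md a →ₗ[R] Md b :=
  Submodule.mapQ _ _ (Submodule.inclusion (sp_mono e h.1)) (by
    intro x hx
    exact h.2 hx)

/-- The map to `M`. -/
noncomputable def toM (a : Pres e) : Md a →ₗ[R] M :=
  Submodule.liftQ _ ((pr e).comp (sp e a.S).subtype) (by
    intro x hx
    exact a.hK hx)

theorem toM_mk (a : Pres e) (x : sp e a.S) : toM a (Submodule.Quotient.mk x) = pr e x.1 := rfl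

theorem toM_tr {a b : Pres e} (h : a ≤ b) (x : Md a) : toM b (tr h x) = toM a x := by
  obtain ⟨x, rfl⟩ := Submodule.Quotient.mk_surjective _ x
  rfl

instance (S : Finset (M × ℕ)) : Module.Finite R (sp e S) :=
  Module.Finite.span_of_finite R (S.finite_toSet.image e)

/-- The property of factorization. -/
def Factors (P : ∀ (C : Type u) [AddCommGroup C] [Module R C], Prop) (M : Type u) [AddCommGroup M]
    [Module R M] : Prop :=
  ∀ (N : Type u) [AddCommGroup N] [Module R N] (_ : Module.Finite R N) (g : N →ₗ[R] M),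
    ∃ (C : Type u) (_ : AddCommGroup C) (_ : Module R C) (_ : Module.Finite R C) (_ : P C)
      (a : N →ₗ[R] C) (b : C →ₗ[R] M), b.comp a = g

variable (P : ∀ (C : Type u) [AddCommGroup C] [Module R C], Prop)
  (hP : ∀ (C D : Type u) [AddCommGroup C] [Module R C] [AddCommGroup D] [Module R D],
    Nonempty (C ≃ₗ[R] D) → P C → P D)

include hP in
/-- Every presentation lies below one with the property `P`. -/
theorem exists_above (hF : Factors P M) (p : Pres e) : ∃ q : Pres e, p ≤ q ∧ P (Md q) := by
  classical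
  obtain ⟨C, _, _, hfin, hPC, a, b, hab⟩ := hF (Md p) inferInstance (toM p)
  obtain ⟨r, c, hc⟩ := Module.Finite.exists_fin (R := R) (M := C)
  -- a bound for the second coordinates
  obtain ⟨n₀, hn₀⟩ : ∃ n₀ : ℕ, ∀ x ∈ p.S, x.2 < n₀ :=
    ⟨(p.S.sup Prod.snd) + 1, fun x hx => Nat.lt_succ_of_le (Finset.le_sup (f := Prod.snd) hx)⟩
  let new : Fin r → M × ℕ := fun t => (b (c t), n₀ + t)
  have hnew : Function.Injective new := by
    intro t t' h
    have h1 : n₀ + (t : ℕ) = n₀ + t' := congrArg Prod.snd h
    exact Fin.ext (by omega)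
  let S' : Finset (M × ℕ) := p.S ∪ Finset.univ.image new
  let g : M × ℕ → C := fun x =>
    if h : x ∈ p.S then a (Submodule.Quotient.mk ⟨e x, e_mem e h⟩)
    else if h' : ∃ t, new t = x then c h'.choose else 0
  have hg1 : ∀ x (h : x ∈ p.S), g x = a (Submodule.Quotient.mk ⟨e x, e_mem e h⟩) :=
    fun x h => dif_pos h
  have hg2 : ∀ t, g (new t) = c t := by
    intro t
    have h1 : new t ∉ p.S := by
      intro h
      have := hn₀ _ h
      simp only [new] at this
      omega
    have h2 : ∃ t', new t' = new t := ⟨t, rfl⟩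
    show (if h : new t ∈ p.S then _ else if h' : ∃ t', new t' = new t then c h'.choose else 0) = _
    rw [dif_neg h1, dif_pos h2]
    exact congrArg c (hnew h2.choose_spec)
  let φ : F →ₗ[R] C := e.constr R g
  have hφe : ∀ x, φ (e x) = g x := fun x => e.constr_basis R _ x
  have hφ : ∀ (y : F) (hy : y ∈ sp e p.S), φ y = a (Submodule.Quotient.mk ⟨y, hy⟩) := by
    have h1 : φ.comp (sp e p.S).subtype = a.comp (Submodule.mkQ _) := by
      apply LinearMap.ext
      rintro ⟨y, hy⟩
      show φ y = a (Submodule.Quotient.mk ⟨y, hy⟩)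
      unfold sp at hy
      induction hy using Submodule.span_induction with
      | mem x hx =>
        obtain ⟨x, hx, rfl⟩ := hx
        rw [hφe]
        exact hg1 x hx
      | zero =>
        rw [map_zero]
        exact (map_zero a).symm
      | add x y hx hy ihx ihy =>
        rw [map_add, ihx, ihy, ← map_add]
        rfl
      | smul r x hx ih =>
        rw [map_smul, ih, ← map_smul]
        rfl
    intro y hy
    exact LinearMap.congr_fun h1 ⟨y, hy⟩
  have hbg : ∀ x ∈ S', b (g x) = x.1 := by
    intro x hx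
    rcases Finset.mem_union.1 hx with h | h
    · rw [hg1 x h]
      have h1 := LinearMap.congr_fun hab (Submodule.Quotient.mk ⟨e x, e_mem e h⟩)
      rw [LinearMap.comp_apply] at h1
      rw [h1, toM_mk, pr_e]
    · obtain ⟨t, _, rfl⟩ := Finset.mem_image.1 h
      rw [hg2]
  have hbφ : ∀ y ∈ sp e S', b (φ y) = pr e y := by
    intro y hy
    unfold sp at hy
    induction hy using Submodule.span_induction with
    | mem x hx =>
      obtain ⟨x, hx, rfl⟩ := hx
      rw [hφe, pr_e]
      exact hbg x hx
    | zero => simp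
    | add x y _ _ ihx ihy => rw [map_add, map_add, map_add, ihx, ihy]
    | smul r x _ ih => rw [map_smul, map_smul, map_smul, ih]
  let q : Pres e :=
    { S := S'
      K := LinearMap.ker φ ⊓ sp e S'
      hS := inf_le_right
      hK := by
        intro y hy
        have h1 : φ y = 0 := hy.1
        rw [LinearMap.mem_ker, ← hbφ y hy.2, h1, map_zero] }
  have hpq : p ≤ q := by
    refine ⟨Finset.subset_union_left, fun y hy => ⟨?_, ?_⟩⟩
    · have h1 := p.hS hy
      rw [SetLike.mem_coe, LinearMap.mem_ker, hφ y h1]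
      have h2 : (Submodule.Quotient.mk (⟨y, h1⟩ : sp e p.S) : Md p) = 0 := by
        rw [Submodule.Quotient.mk_eq_zero]
        exact hy
      rw [h2, map_zero]
    · exact sp_mono e Finset.subset_union_left (p.hS hy)
  refine ⟨q, hpq, hP C (Md q) ?_ hPC⟩
  -- the isomorphism
  let ψ : sp e q.S →ₗ[R] C := φ.comp (sp e q.S).subtype
  have hψs : Function.Surjective ψ := by
    rw [← LinearMap.range_eq_top, eq_top_iff, ← hc, Submodule.span_le]
    rintro _ ⟨t, rfl⟩
    refine ⟨⟨e (new t), e_mem e (Finset.mem_union_right _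
      (Finset.mem_image_of_mem _ (Finset.mem_univ t)))⟩, ?_⟩
    show φ (e (new t)) = c t
    rw [hφe, hg2]
  have hψk : LinearMap.ker ψ = q.K.submoduleOf (sp e q.S) := by
    ext x
    rw [LinearMap.mem_ker]
    constructor
    · intro h
      exact ⟨h, x.2⟩
    · intro h
      exact h.1
  exact ⟨((Submodule.quotEquivOfEq _ _ hψk.symm).trans (ψ.quotKerEquivOfSurjective hψs)).symm⟩

/-- **Lenzing's criterion**, for a free module with basis `M × ℕ`. -/
theorem lazard_aux (e : Basis (M × ℕ) R F) (hF : Factors P M)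
    (hP : ∀ (C D : Type u) [AddCommGroup C] [Module R C]
    [AddCommGroup D] [Module R D], Nonempty (C ≃ₗ[R] D) → P C → P D) :
    ∃ (ι : Type u) (_ : Preorder ι) (_ : IsDirectedOrder ι) (_ : Nonempty ι) (_ : DecidableEq ι)
      (G : ι → Type u) (_ : ∀ i, AddCommGroup (G i)) (_ : ∀ i, Module R (G i))
      (f : ∀ i j, i ≤ j → G i →ₗ[R] G j) (_ : DirectedSystem G fun i j h => f i j h),
      (∀ i, Module.Finite R (G i) ∧ P (G i)) ∧ Nonempty (Module.DirectLimit G f ≃ₗ[R] M) := by
  classical
  let ι : Type u := {p : Pres e // P (Md p)}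
  have hdir : IsDirectedOrder ι := by
    refine ⟨fun p q => ?_⟩
    let s : Pres e :=
      { S := p.1.S ∪ q.1.S
        K := p.1.K ⊔ q.1.K
        hS := sup_le (p.1.hS.trans (sp_mono e Finset.subset_union_left))
          (q.1.hS.trans (sp_mono e Finset.subset_union_right))
        hK := sup_le p.1.hK q.1.hK }
    obtain ⟨t, hst, ht⟩ := exists_above P hP hF s
    have h1 : p.1 ≤ s := ⟨Finset.subset_union_left, le_sup_left⟩
    have h2 : q.1 ≤ s := ⟨Finset.subset_union_right, le_sup_right⟩
    exact ⟨⟨t, ht⟩, h1.trans hst, h2.trans hst⟩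
  have hne : Nonempty ι := by
    let s : Pres e := { S := ∅, K := ⊥, hS := bot_le, hK := bot_le }
    obtain ⟨t, _, ht⟩ := exists_above P hP hF s
    exact ⟨⟨t, ht⟩⟩
  let G : ι → Type u := fun p => Md p.1
  let f : ∀ i j : ι, i ≤ j → G i →ₗ[R] G j := fun i j h => tr h
  have hsys : DirectedSystem G fun i j h => f i j h := by
    constructor
    · intro i x
      obtain ⟨x, rfl⟩ := Submodule.Quotient.mk_surjective _ x
      rfl
    · intro k j i hij hjk x
      obtain ⟨x, rfl⟩ := Submodule.Quotient.mk_surjective _ x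
      rfl
  refine ⟨ι, inferInstance, hdir, hne, inferInstance, G, fun i => inferInstance,
    fun i => inferInstance, f, hsys, fun i => ⟨inferInstance, i.2⟩, ?_⟩
  let L : Module.DirectLimit G f →ₗ[R] M :=
    Module.DirectLimit.lift R ι G f (fun i => toM i.1) (fun i j h x => toM_tr h x)
  refine ⟨LinearEquiv.ofBijective L ⟨?_, ?_⟩⟩
  · rw [injective_iff_map_eq_zero]
    intro z hz
    obtain ⟨i, x, rfl⟩ := Module.DirectLimit.exists_of z
    have hz' : toM i.1 x = 0 := by
      have h1 : L (Module.DirectLimit.of R ι G f i x) = toM i.1 x :=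
        Module.DirectLimit.lift_of _ _ _
      rw [← h1, hz]
    obtain ⟨y, rfl⟩ := Submodule.Quotient.mk_surjective _ x
    rw [toM_mk] at hz'
    let s : Pres e :=
      { S := i.1.S
        K := i.1.K ⊔ Submodule.span R {y.1}
        hS := sup_le i.1.hS ((Submodule.span_singleton_le_iff_mem _ _).2 y.2)
        hK := sup_le i.1.hK ((Submodule.span_singleton_le_iff_mem _ _).2 hz') }
    obtain ⟨t, hst, ht⟩ := exists_above P hP hF s
    have his : i.1 ≤ s := ⟨Finset.Subset.refl _, le_sup_left⟩
    have hit : i ≤ (⟨t, ht⟩ : ι) := his.trans hst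
    rw [← Module.DirectLimit.of_f (hij := hit)]
    have h1 : f i ⟨t, ht⟩ hit (Submodule.Quotient.mk y) = 0 := by
      show (Submodule.Quotient.mk _ : Md t) = 0
      rw [Submodule.Quotient.mk_eq_zero]
      exact hst.2 (Submodule.mem_sup_right (Submodule.mem_span_singleton_self _))
    rw [h1, map_zero]
  · intro m
    let s : Pres e :=
      { S := {(m, 0)}
        K := ⊥
        hS := bot_le
        hK := bot_le }
    obtain ⟨t, hst, ht⟩ := exists_above P hP hF s
    have hm : (m, 0) ∈ t.S := hst.1 (Finset.mem_singleton_self _)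
    refine ⟨Module.DirectLimit.of R ι G f ⟨t, ht⟩ (Submodule.Quotient.mk
      ⟨e (m, 0), e_mem e hm⟩), ?_⟩
    have h1 : L (Module.DirectLimit.of R ι G f ⟨t, ht⟩ (Submodule.Quotient.mk
      ⟨e (m, 0), e_mem e hm⟩)) = toM t (Submodule.Quotient.mk ⟨e (m, 0), e_mem e hm⟩) :=
        Module.DirectLimit.lift_of _ _ _
    rw [h1, toM_mk, pr_e]

/-- **Lenzing's criterion.** -/
theorem lazard (hF : Factors P M)
    (hP : ∀ (C D : Type u) [AddCommGroup C] [Module R C]
    [AddCommGroup D] [Module R D], Nonempty (C ≃ₗ[R] D) → P C → P D) :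
    ∃ (ι : Type u) (_ : Preorder ι) (_ : IsDirectedOrder ι) (_ : Nonempty ι) (_ : DecidableEq ι)
      (G : ι → Type u) (_ : ∀ i, AddCommGroup (G i)) (_ : ∀ i, Module R (G i))
      (f : ∀ i j, i ≤ j → G i →ₗ[R] G j) (_ : DirectedSystem G fun i j h => f i j h),
      (∀ i, Module.Finite R (G i) ∧ P (G i)) ∧ Nonempty (Module.DirectLimit G f ≃ₗ[R] M) :=
  lazard_aux P (Finsupp.basisSingleOne (R := R) (ι := M × ℕ)) hF hP

end Pool.Agent.K6.H7.LZ
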